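import Pool.Agent.Helper11.KS.Sheet
import Pool.Agent.Helper76.NH.LEN

/-! # Row CQ of the project KS (MP_665203_nt) -/

set_option autoImplicit false

open MeasureTheory Metric Set Filter Topology Real
open scoped ENNReal NNReal

namespace H11ST
namespace KS
namespace CQ76

open NH NH.Len76

/-- the vector with the coordinates `x`, `y` in the frame of direction `φ` -/
noncomputable def fr (φ x y : ℝ) : E 2 := x • ev φ + y • ev (φ + π / 2)

theorem fr0 (φ x y : ℝ) : (fr φ x y) 0 = x * cos φ - y * sin φ := by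
  unfold fr
  simp only [PiLp.add_apply, PiLp.smul_apply, ev0, smul_eq_mul, cos_add_pi_div_two]
  ring

theorem fr1 (φ x y : ℝ) : (fr φ x y) 1 = x * sin φ + y * cos φ := by
  unfold fr
  simp only [PiLp.add_apply, PiLp.smul_apply, ev1, smul_eq_mul, sin_add_pi_div_two]

theorem ext2 {u w : E 2} (h0 : u 0 = w 0) (h1 : u 1 = w 1) : u = w := by
  ext i
  fin_cases i
  · exact h0
  · exact h1

theorem fr_add (φ x y x' y' : ℝ) : fr φ x y + fr φ x' y' = fr φ (x + x') (y + y') := by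
  unfold fr; module

theorem fr_sub (φ x y x' y' : ℝ) : fr φ x y - fr φ x' y' = fr φ (x - x') (y - y') := by
  unfold fr; module

theorem fr_smul (φ x y c : ℝ) : c • fr φ x y = fr φ (c * x) (c * y) := by
  unfold fr; module

theorem ev_fr (φ θ : ℝ) : ev (φ + θ) = fr φ (cos θ) (sin θ) := by
  apply ext2
  · rw [fr0, ev0, cos_add]; ring
  · rw [fr1, ev1, sin_add]; ring

theorem ev_fr0 (φ : ℝ) : ev φ = fr φ 1 0 := by
  unfold fr; module

theorem eq_fr (φ : ℝ) (w : E 2) : w = fr φ (al w φ) (oh w φ) := by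
  have hc := sin_sq_add_cos_sq φ
  apply ext2
  · rw [fr0]; unfold al oh
    linear_combination (-(w 0)) * hc
  · rw [fr1]; unfold al oh
    linear_combination (-(w 1)) * hc

theorem norm_fr_sq (φ x y : ℝ) : ‖fr φ x y‖ ^ 2 = x ^ 2 + y ^ 2 := by
  rw [EuclideanSpace.norm_sq_eq, Fin.sum_univ_two]
  simp only [Real.norm_eq_abs, sq_abs, fr0, fr1]
  linear_combination (x ^ 2 + y ^ 2) * sin_sq_add_cos_sq φ

theorem norm_fr (φ x y : ℝ) : ‖fr φ x y‖ = √(x ^ 2 + y ^ 2) := by
  rw [← norm_fr_sq φ, sqrt_sq (norm_nonneg _)]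

theorem al_fr (φ x y θ : ℝ) : al (fr φ x y) (φ + θ) = x * cos θ + y * sin θ := by
  unfold al
  rw [fr0, fr1, cos_add, sin_add]
  linear_combination (x * cos θ + y * sin θ) * sin_sq_add_cos_sq φ

theorem oh_fr (φ x y θ : ℝ) : oh (fr φ x y) (φ + θ) = y * cos θ - x * sin θ := by
  unfold oh
  rw [fr0, fr1, cos_add, sin_add]
  linear_combination (y * cos θ - x * sin θ) * sin_sq_add_cos_sq φ

/-- monotonicity of `√(1 - x) - √(b - x)` -/
theorem mono1 {x y b : ℝ} (hxy : x ≤ y) (hyb : y ≤ b) (hb : b ≤ 1) :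
    √(1 - x) - √(b - x) ≤ √(1 - y) - √(b - y) := by
  have h : √(1 - x) + √(b - y) ≤ √(1 - y) + √(b - x) := by
    have e1 := sq_sqrt (show (0 : ℝ) ≤ 1 - x by linarith)
    have e2 := sq_sqrt (show (0 : ℝ) ≤ b - y by linarith)
    have e3 := sq_sqrt (show (0 : ℝ) ≤ 1 - y by linarith)
    have e4 := sq_sqrt (show (0 : ℝ) ≤ b - x by linarith)
    have h1 : √(1 - x) * √(b - y) ≤ √(1 - y) * √(b - x) := by
      rw [← sqrt_mul (by linarith), ← sqrt_mul (by linarith)]
      apply sqrt_le_sqrt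
      nlinarith
    have p1 := sqrt_nonneg (1 - x)
    have p2 := sqrt_nonneg (b - y)
    have p3 := sqrt_nonneg (1 - y)
    have p4 := sqrt_nonneg (b - x)
    apply le_of_sq_le_sq _ (by positivity)
    nlinarith
  linarith

/-- one arm -/
theorem arm {t : ℝ} (ht0 : 0 < t) (ht : t ≤ 3 / 10) {s v : E 2} {c rr β : ℝ} (hs : ‖s‖ < t)
    (hc : 0 < c) (hv : v = s + c • ev β) (h1 : (2 - t) / 3 ≤ ‖v‖) (h2 : ‖v‖ ≤ 1) (hr : 0 ≤ rr)
    (hrv : ‖v + rr • ev β‖ = 1) :
    (‖v‖ = 1 → rr = 0) ∧ rr ≤ √(1 - t ^ 2) - √(((2 - t) / 3) ^ 2 - t ^ 2) ∧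
    c + rr = √(1 - oh s β ^ 2) - al s β := by
  have e1 := al_oh_sq s β
  have e2 := al_oh_sq v β
  have e3 : al v β = al s β + c := by rw [hv, al_add]
  have e4 : oh v β = oh s β := by rw [hv, oh_add]
  have e5 := al_oh_sq (v + rr • ev β) β
  rw [al_add, oh_add, e3, e4, hrv] at e5
  rw [e3, e4] at e2
  set A := al s β with hA
  set h := oh s β with hh
  have hvn := norm_nonneg v
  have hsn := norm_nonneg s
  have hs2 : ‖s‖ ^ 2 < t ^ 2 := pow_lt_pow_left₀ hs hsn (by norm_num)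
  have hv2 : ((2 - t) / 3) ^ 2 ≤ ‖v‖ ^ 2 := by
    apply pow_le_pow_left₀ (by linarith) h1
  have ht2 : t ^ 2 < ((2 - t) / 3) ^ 2 := pow_lt_pow_left₀ (by linarith) ht0.le (by norm_num)
  have hh2 : h ^ 2 < t ^ 2 := by linarith [sq_nonneg A]
  have hpos : 0 < A + c := by
    by_contra hcon
    rw [not_lt] at hcon
    have h7 : 0 ≤ c * (-(2 * A + c)) := mul_nonneg hc.le (by linarith)
    have h8 : (A + c) ^ 2 = A ^ 2 - c * (-(2 * A + c)) := by ring
    linarith
  have hpos2 : 0 < A + c + rr := by linarith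
  have hroot : A + c + rr = √(1 - h ^ 2) := by
    rw [eq_comm, sqrt_eq_iff_mul_self_eq_of_pos hpos2]
    linarith [e5, sq (A + c + rr)]
  refine ⟨?_, ?_, by linarith⟩
  · intro h3
    rw [h3] at e2
    have : rr * (2 * (A + c) + rr) = 0 := by linear_combination e5 - e2
    rcases mul_eq_zero.1 this with h4 | h4
    · exact h4
    · linarith
  · have hroot2 : √(((2 - t) / 3) ^ 2 - h ^ 2) ≤ A + c := by
      apply sqrt_le_iff.2 ⟨hpos.le, by linarith⟩
    have hb1 : ((2 - t) / 3) ^ 2 ≤ 1 := pow_le_one₀ (by linarith) (by linarith)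
    have hm := mono1 hh2.le ht2.le hb1
    linarith

theorem c43 : cos (4 * π / 3) = -(1 / 2) := by
  rw [show 4 * π / 3 = π / 3 + π by ring, cos_add_pi, c13]
theorem s43 : sin (4 * π / 3) = -(√3 / 2) := by
  rw [show 4 * π / 3 = π / 3 + π by ring, sin_add_pi, s13]

/-- row CQ -/
theorem ks_cq : KS_CQ := by
  intro t φ s a v c rr ht0 ht G
  have h3 : (√3 : ℝ) ^ 2 = 3 := sq_sqrt (by norm_num)
  have h30 : (0 : ℝ) < √3 := sqrt_pos.2 (by norm_num)
  have key : ∀ i, _ := fun i => arm ht0 ht (G.sn (ft4 i)) (G.cpos i) (G.vd i) (G.vlow i) (G.vup i)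
    (G.r0 i) (G.rv i)
  set p : ℝ := al (s 0) φ + a / 2 with hp
  set g : ℝ := oh (s 0) φ with hg
  have hs0 : s 0 = fr φ (p - a / 2) g := by
    have := eq_fr φ (s 0)
    rw [this]
    congr 1
    rw [hp]; ring
  have hs1 : s 1 = fr φ (p + a / 2) g := by
    rw [G.s1, hs0, ev_fr0, fr_smul, fr_add]
    congr 1 <;> ring
  have n0 := norm_fr_sq φ (p - a / 2) g
  have n1 := norm_fr_sq φ (p + a / 2) g
  rw [← hs0] at n0
  rw [← hs1] at n1
  have m0 := G.sn 0
  have m1 := G.sn 1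
  have q0 := norm_nonneg (s 0)
  have q1 := norm_nonneg (s 1)
  refine ⟨?_, fun i => (key i).1, fun i => (key i).2.1, p, g, ?_, ?_, ?_, ?_, ?_, ?_, ?_, ?_⟩
  · rw [G.s1, dist_self_add_right, norm_smul, norm_ev, mul_one, norm_eq_abs, abs_of_pos G.apos]
  · nlinarith
  · nlinarith
  · rw [midpoint_eq_smul_add, hs0, hs1, fr_add, fr_smul, norm_fr]
    congr 1
    simp only [invOf_eq_inv]
    ring
  · rw [(key 0).2.2]
    have e1 : ft4 0 = 1 := rfl
    have e2 : dl4 0 = π / 3 := rfl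
    rw [e1, e2, hs1, al_fr, oh_fr, c13, s13]
    congr 2 <;> ring
  · rw [(key 1).2.2]
    have e1 : ft4 1 = 0 := rfl
    have e2 : dl4 1 = 2 * π / 3 := rfl
    rw [e1, e2, hs0, al_fr, oh_fr, c23, s23]
    congr 2 <;> ring
  · rw [(key 2).2.2]
    have e1 : ft4 2 = 0 := rfl
    have e2 : dl4 2 = 4 * π / 3 := rfl
    rw [e1, e2, hs0, al_fr, oh_fr, c43, s43]
    congr 2 <;> ring
  · rw [(key 3).2.2]
    have e1 : ft4 3 = 1 := rfl
    have e2 : dl4 3 = 5 * π / 3 := rfl
    rw [e1, e2, hs1, al_fr, oh_fr, c53, s53]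
    congr 2 <;> ring
  · intro e C l hC l0 l1 l2 l3
    refine ⟨fr φ (p + (C 1 - C 0) / 2) (g + (C 0 + C 1 - a) / (2 * √3)),
      fr φ (p + (C 2 - C 3) / 2) (g - (C 2 + C 3 - a) / (2 * √3)), ?_, ?_, ?_, ?_⟩
    · have hi : (√3)⁻¹ = √3 / 3 := by
        field_simp
        rw [h3]
      have hv : ∀ i, v i + e i • ev (φ + dl4 i) = s (ft4 i) + C i • ev (φ + dl4 i) := by
        intro i
        rw [G.vd i, hC i]; module
      intro i
      rw [hv]
      fin_cases i
      · change s 1 + C 0 • ev (φ + π / 3) - l 0 • ev (φ + π / 3 - 1 * (π / 6)) =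
          fr φ (p + (C 1 - C 0) / 2) (g + (C 0 + C 1 - a) / (2 * √3))
        rw [show φ + π / 3 - 1 * (π / 6) = φ + π / 6 by ring, hs1, ev_fr, ev_fr, c13, s13,
          cos_pi_div_six, sin_pi_div_six, fr_smul, fr_smul, fr_add, fr_sub, l0]
        congr 1
        · simp only [div_eq_mul_inv, mul_inv, hi]
          ring_nf
          rw [h3]; ring
        · simp only [div_eq_mul_inv, mul_inv, hi]
          ring
      · change s 0 + C 1 • ev (φ + 2 * π / 3) - l 1 • ev (φ + 2 * π / 3 - (-1) * (π / 6)) =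
          fr φ (p + (C 1 - C 0) / 2) (g + (C 0 + C 1 - a) / (2 * √3))
        rw [show φ + 2 * π / 3 - (-1) * (π / 6) = φ + (π - π / 6) by ring, hs0, ev_fr, ev_fr, c23,
          s23, cos_pi_sub, sin_pi_sub,
          cos_pi_div_six, sin_pi_div_six, fr_smul, fr_smul, fr_add, fr_sub, l1]
        congr 1
        · simp only [div_eq_mul_inv, mul_inv, hi]
          ring_nf
          rw [h3]; ring
        · simp only [div_eq_mul_inv, mul_inv, hi]
          ring
      · change s 0 + C 2 • ev (φ + 4 * π / 3) - l 2 • ev (φ + 4 * π / 3 - 1 * (π / 6)) =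
          fr φ (p + (C 2 - C 3) / 2) (g - (C 2 + C 3 - a) / (2 * √3))
        rw [show φ + 4 * π / 3 - 1 * (π / 6) = φ + (π / 6 + π) by ring, hs0, ev_fr, ev_fr, c43,
          s43, cos_add_pi, sin_add_pi,
          cos_pi_div_six, sin_pi_div_six, fr_smul, fr_smul, fr_add, fr_sub, l2]
        congr 1
        · simp only [div_eq_mul_inv, mul_inv, hi]
          ring_nf
          rw [h3]; ring
        · simp only [div_eq_mul_inv, mul_inv, hi]
          ring
      · change s 1 + C 3 • ev (φ + 5 * π / 3) - l 3 • ev (φ + 5 * π / 3 - (-1) * (π / 6)) =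
          fr φ (p + (C 2 - C 3) / 2) (g - (C 2 + C 3 - a) / (2 * √3))
        rw [show φ + 5 * π / 3 - (-1) * (π / 6) = φ + (2 * π - π / 6) by ring, hs1, ev_fr, ev_fr,
          c53, s53, cos_two_pi_sub, sin_two_pi_sub,
          cos_pi_div_six, sin_pi_div_six, fr_smul, fr_smul, fr_add, fr_sub, l3]
        congr 1
        · simp only [div_eq_mul_inv, mul_inv, hi]
          ring_nf
          rw [h3]; ring
        · simp only [div_eq_mul_inv, mul_inv, hi]
          ring
    · rw [dist_eq_norm, fr_sub, norm_fr]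
      congr 1
      field_simp
      rw [h3]
      ring
    · rw [norm_fr_sq]
    · rw [norm_fr_sq]

end CQ76
end KS
end H11ST
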