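import Pool.Agent.Helper11.KS.Sheet
import Pool.Agent.H11ST.Comp

/-! # Row FAR of the project KS (MP_665203_nt) -/

set_option autoImplicit false

open MeasureTheory Metric Set Filter Topology Real
open scoped ENNReal NNReal

namespace H11ST
namespace KS
namespace FAR76

open NH

/-- row FAR -/
theorem ks_far : KS_FAR := by
  intro hN A S r hS t ht0 ht b b' hbb hb hb' hT hT' v hvb hvb' hv1 hTv
  by_contra hcon
  rw [not_le] at hcon
  set lam : ℝ := (1 - 2 * t) / 3 with hlam
  have hl0 : 0 ≤ lam := by rw [hlam]; linarith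
  have hl1 : lam < 1 := by rw [hlam]; linarith
  have hvn := norm_nonneg v
  set x : E 2 := (lam / ‖v‖) • v with hx
  have hxn : ‖x‖ ≤ lam := by
    rw [hx, norm_smul, norm_div, norm_norm, norm_eq_abs, abs_of_nonneg hl0]
    rcases eq_or_ne ‖v‖ 0 with h | h
    · rw [h]; simpa using hl0
    · rw [div_mul_cancel₀ _ h]
  have hvx : dist v x < 1 / 2 * (1 - lam) := by
    rw [hx, dist_eq_norm]
    rcases eq_or_ne v 0 with h | h
    · rw [h]; simp only [smul_zero, sub_zero, norm_zero]; linarith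
    · have hn : ‖v‖ ≠ 0 := norm_ne_zero_iff.2 h
      have e : v - (lam / ‖v‖) • v = (1 - lam / ‖v‖) • v := by rw [sub_smul, one_smul]
      rw [e, norm_smul, norm_eq_abs]
      have e2 : |1 - lam / ‖v‖| * ‖v‖ = |‖v‖ - lam| := by
        rw [← abs_of_nonneg hvn, ← abs_mul, abs_of_nonneg hvn]
        congr 1
        field_simp
      rw [e2, abs_lt, hlam]
      constructor <;> linarith
  have hbx : ∀ w : E 2, ‖w‖ < t → dist w x < 1 / 2 * (1 - lam) := by
    intro w hw
    have h1 : dist w x ≤ ‖w‖ + ‖x‖ := by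
      rw [dist_eq_norm]; exact norm_sub_le _ _
    have : ‖w‖ + ‖x‖ < 1 / 2 * (1 - lam) := by
      calc ‖w‖ + ‖x‖ < t + lam := by linarith
        _ = 1 / 2 * (1 - lam) := by rw [hlam]; ring
    linarith
  have hL : LocAdm A S x (1 - lam) := hS.L.restrict (by linarith) (by
    intro w hw
    rw [mem_ball] at hw
    rw [mem_ball, dist_zero_right]
    have h1 : ‖w‖ ≤ dist w x + ‖x‖ := by
      rw [dist_eq_norm]
      calc ‖w‖ = ‖w - x + x‖ := by rw [sub_add_cancel]
        _ ≤ _ := norm_add_le _ _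
    have := hS.r1
    linarith)
  refine hN A S x (1 - lam) hL hS.cl {b, b', v} ?_ ?_
  · rw [Finset.card_eq_three]
    exact ⟨b, b', v, hbb, hvb.symm, hvb'.symm, rfl⟩
  · intro y hy
    rw [Finset.mem_insert, Finset.mem_insert, Finset.mem_singleton] at hy
    rcases hy with rfl | rfl | rfl
    · exact ⟨mem_ball.2 (hbx _ hb), hT⟩
    · exact ⟨mem_ball.2 (hbx _ hb'), hT'⟩
    · exact ⟨mem_ball.2 hvx, hTv⟩

end FAR76
end KS
end H11ST
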